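import Pool.Agent.H482R3.EA.Stm

set_option autoImplicit false

/-! Project EA (helper482), task A1 (helper475): the action of a fixed line group is an action. -/

namespace Pool.Agent.H475R.EA.A1

open Pool.Agent.H482R3.EA Pool.Agent.H482R3.EA.NF

theorem t_A1 (h4 : S_P4) (hAN : S_ACTN) : S_A1 := by
  intro S h l y y' hv
  by_cases hD : InD S l (st h)
  · cases h with
    | one => exact hD.elim
    | pt h p n =>
      have hI : S.I p l := hD
      obtain ⟨hv', hn, hnear⟩ := hv
      have hnD : ¬ InD S l (st h) := by
        intro hl
        apply hnear
        cases hst : st h with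
        | none => rw [hst] at hl; exact hl.elim
        | ln m =>
          rw [hst] at hl
          have hlm : l = m := hl
          subst hlm
          exact hI
        | pt r =>
          rw [hst] at hl
          exact ⟨l, hl, hI⟩
      have e1 : ∀ z : S.L l, act (.pt h p n) l z = up h l (S.x l p ^ n * z) := fun z => by
        simp only [act]
        rw [if_pos hI]
      rw [e1, e1]
      rw [h4 S h l _ _ hv' hnD, mul_assoc]
    | ln h m t =>
      have hlm : l = m := hD
      subst hlm
      obtain ⟨hv', hnD, -, -⟩ := hv
      have e1 : ∀ z : S.L l, act (.ln h l t) l z = up h l (t * z) := fun z => by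
        simp only [act]
        rw [dif_pos trivial]
      rw [e1, e1, h4 S h l _ _ hv' hnD, mul_assoc]
  · rw [hAN S h l y hD, hAN S h l _ hD, h4 S h l y y' hv hD]

end Pool.Agent.H475R.EA.A1
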